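import Pool.Agent.P8H88.RF.Gen2
import Pool.Agent.P8H16.RF.Stm3

set_option autoImplicit false

/-!
# Project RF (helper16), package GEN3: the range `T ≤ exp (N ^ (2σ - 1 - ε))`
-/

namespace Pool.Agent.P8H88.RF

open Finset MeasureTheory Filter
open Pool.Agent.P8H16.RF

theorem gen3 : S_GEN3 := by
  intro x s hs
  refine ⟨?_, ?_⟩
  · intro hL σ hσ ε hε
    set q : ℝ := 2 - 2 * σ + ε with hq
    rcases le_or_gt (2 * σ - 1 - ε) 0 with hneg | hpos
    · refine ⟨4, fun N hN T hT b hb W hW => ?_⟩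
      have hNr : (1 : ℝ) ≤ N := by exact_mod_cast hN
      have hNq : 1 ≤ (N : ℝ) ^ q := Real.one_le_rpow hNr (by rw [hq]; linarith)
      rcases W.eq_empty_or_nonempty with rfl | hne
      · simp only [Finset.card_empty, Nat.cast_zero]
        positivity
      obtain ⟨hT0, hcard⟩ := card_le_T (fun t ht => ⟨(hW t ht).1, (hW t ht).2.1⟩) hne
      have h1 : (N : ℝ) ^ (2 * σ - 1 - ε) ≤ 1 := Real.rpow_le_one_of_one_le_of_nonpos hNr hneg
      have h2 : Real.exp ((N : ℝ) ^ (2 * σ - 1 - ε)) ≤ Real.exp 1 := Real.exp_le_exp.2 h1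
      have h3 : Real.exp 1 < 3 := lt_trans Real.exp_one_lt_d9 (by norm_num)
      linarith
    set δ : ℝ := 2 * σ - 1 - ε with hδ
    set ε' : ℝ := min (ε / 4) ((σ - s) / 2) with hε'
    have hε'0 : 0 < ε' := lt_min (by positivity) (by linarith)
    have hε'1 : ε' ≤ ε / 4 := min_le_left _ _
    have hε'2 : ε' ≤ (σ - s) / 2 := min_le_right _ _
    obtain ⟨C, hC, h⟩ := hL δ hpos.le ε' hε'0
    set N₀ : ℝ := max 1 ((4 * C + 1) ^ (1 / ε')) with hN₀
    have hN₀1 : 1 ≤ N₀ := le_max_left _ _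
    refine ⟨4 * C ^ 2 + (Real.exp (N₀ ^ δ) + 1) * N₀ ^ |q|, ?_⟩
    intro N hN T hT b hb W hW
    have hNr : (1 : ℝ) ≤ N := by exact_mod_cast hN
    have hNq : 0 < (N : ℝ) ^ q := by positivity
    rcases W.eq_empty_or_nonempty with rfl | hne
    · simp only [Finset.card_empty, Nat.cast_zero]
      positivity
    obtain ⟨hT0, hcard⟩ := card_le_T (fun t ht => ⟨(hW t ht).1, (hW t ht).2.1⟩) hne
    set Q : ℝ := (N : ℝ) ^ s + (N : ℝ) ^ ((1 + δ) / 2) with hQ
    by_cases hc : 2 * C * ((N : ℝ) ^ ε' * Q) ≤ (N : ℝ) ^ σ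
    · have hR0 : (0 : ℝ) < W.card := by exact_mod_cast hne.card_pos
      have hM : ((⌊T⌋₊ + 1 : ℕ) : ℝ) ≤ Real.exp ((N : ℝ) ^ δ) + 1 := by
        push_cast
        linarith [Nat.floor_le hT0]
      have hd := dual (x := x) (N := N) (M := ⌊T⌋₊ + 1) hb (W := W) (V := (N : ℝ) ^ σ)
        (B := C * (N : ℝ) ^ ε' * N) (s' := C * (N : ℝ) ^ ε' * Q) (by
          intro t ht
          obtain ⟨h1, h2, h3⟩ := hW t ht
          have h1' : 0 ≤ t := by exact_mod_cast h1
          refine ⟨h1', ?_, h3.le⟩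
          have h4 : t.toNat ≤ ⌊T⌋₊ := by
            apply Nat.le_floor
            have : ((t.toNat : ℕ) : ℝ) = (t : ℝ) := by
              exact_mod_cast Int.toNat_of_nonneg h1'
            rw [this]
            exact h2
          have h5 := Int.toNat_of_nonneg h1'
          push_cast
          omega) (by
          intro a
          refine (h N _ a hN hM).trans (le_of_eq ?_)
          ring)
      set R : ℝ := (W.card : ℝ) with hR
      have hsq : Real.sqrt R * Real.sqrt R = R := Real.mul_self_sqrt hR0.le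
      have hsqpos : 0 < Real.sqrt R := Real.sqrt_pos.2 hR0
      have h1 : R * (N : ℝ) ^ σ ≤ 2 * (C * (N : ℝ) ^ ε' * N) * Real.sqrt R := by
        have h2 : C * (N : ℝ) ^ ε' * Q * R ≤ (N : ℝ) ^ σ / 2 * R := by
          gcongr
          linarith
        linarith
      have h2 : Real.sqrt R * (N : ℝ) ^ σ ≤ 2 * (C * (N : ℝ) ^ ε' * N) := by
        have h3 : Real.sqrt R * (Real.sqrt R * (N : ℝ) ^ σ) ≤
            Real.sqrt R * (2 * (C * (N : ℝ) ^ ε' * N)) := by
          rw [← mul_assoc, hsq]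
          linarith
        exact le_of_mul_le_mul_left h3 hsqpos
      have h3 : R * (N : ℝ) ^ (2 * σ) ≤ 4 * C ^ 2 * (N : ℝ) ^ (2 * ε' + 2) := by
        have h4 : (Real.sqrt R * (N : ℝ) ^ σ) ^ 2 ≤ (2 * (C * (N : ℝ) ^ ε' * N)) ^ 2 := by gcongr
        have e1 : (Real.sqrt R * (N : ℝ) ^ σ) ^ 2 = R * (N : ℝ) ^ (2 * σ) := by
          rw [mul_pow, Real.sq_sqrt hR0.le, ← Real.rpow_natCast, ← Real.rpow_mul (by positivity)]
          congr 2
          push_cast
          ring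
        have e2 : (2 * (C * (N : ℝ) ^ ε' * N)) ^ 2 = 4 * C ^ 2 * (N : ℝ) ^ (2 * ε' + 2) := by
          have e3 : (N : ℝ) ^ (2 * ε' + 2) = ((N : ℝ) ^ ε' * N) ^ 2 := by
            rw [mul_pow, Real.rpow_add (by linarith), ← Real.rpow_natCast ((N : ℝ) ^ ε'),
              ← Real.rpow_mul (by positivity)]
            congr 1
            · congr 1
              push_cast
              ring
            · norm_cast
          rw [e3]
          ring
        rwa [e1, e2] at h4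
      have h5 : R ≤ 4 * C ^ 2 * (N : ℝ) ^ q := by
        have h6 : (N : ℝ) ^ (2 * ε' + 2) ≤ (N : ℝ) ^ q * (N : ℝ) ^ (2 * σ) := by
          rw [← Real.rpow_add (by linarith)]
          refine Real.rpow_le_rpow_of_exponent_le hNr ?_
          rw [hq]
          linarith
        have h7 : 0 < (N : ℝ) ^ (2 * σ) := by positivity
        have h8 : R * (N : ℝ) ^ (2 * σ) ≤ 4 * C ^ 2 * (N : ℝ) ^ q * (N : ℝ) ^ (2 * σ) := by
          calc R * (N : ℝ) ^ (2 * σ) ≤ 4 * C ^ 2 * (N : ℝ) ^ (2 * ε' + 2) := h3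
            _ ≤ 4 * C ^ 2 * ((N : ℝ) ^ q * (N : ℝ) ^ (2 * σ)) := by gcongr
            _ = _ := by ring
        exact le_of_mul_le_mul_right h8 h7
      have h9 : 0 ≤ (Real.exp (N₀ ^ δ) + 1) * N₀ ^ |q| * (N : ℝ) ^ q := by positivity
      linarith
    · push Not at hc
      have hNN : (N : ℝ) ≤ N₀ := by
        by_contra hcon
        push Not at hcon
        have h1 : (4 * C + 1) ^ (1 / ε') < (N : ℝ) := lt_of_le_of_lt (le_max_right _ _) hcon
        have h2 : 4 * C + 1 ≤ (N : ℝ) ^ ε' := by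
          have h3 : ((4 * C + 1) ^ (1 / ε')) ^ ε' ≤ (N : ℝ) ^ ε' :=
            Real.rpow_le_rpow (by positivity) h1.le hε'0.le
          rw [← Real.rpow_mul (by positivity)] at h3
          have e1 : 1 / ε' * ε' = 1 := by field_simp
          rwa [e1, Real.rpow_one] at h3
        have h3 : (N : ℝ) ^ ε' * (N : ℝ) ^ s ≤ (N : ℝ) ^ (σ - ε') := by
          rw [← Real.rpow_add (by linarith)]
          exact Real.rpow_le_rpow_of_exponent_le hNr (by linarith)
        have h4 : (N : ℝ) ^ ε' * (N : ℝ) ^ ((1 + δ) / 2) ≤ (N : ℝ) ^ (σ - ε') := by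
          rw [← Real.rpow_add (by linarith)]
          refine Real.rpow_le_rpow_of_exponent_le hNr ?_
          rw [hδ]
          linarith
        have h5 : (N : ℝ) ^ ε' * (N : ℝ) ^ (σ - ε') = (N : ℝ) ^ σ := by
          rw [← Real.rpow_add (by linarith)]
          congr 1
          ring
        have h6 : 2 * C * ((N : ℝ) ^ ε' * Q) ≤ 4 * C * (N : ℝ) ^ (σ - ε') := by
          have h7 : (N : ℝ) ^ ε' * Q ≤ 2 * (N : ℝ) ^ (σ - ε') := by
            rw [hQ, mul_add]
            linarith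
          calc 2 * C * ((N : ℝ) ^ ε' * Q) ≤ 2 * C * (2 * (N : ℝ) ^ (σ - ε')) := by gcongr
            _ = _ := by ring
        have h8 : 4 * C * (N : ℝ) ^ (σ - ε') ≤ (N : ℝ) ^ ε' * (N : ℝ) ^ (σ - ε') := by
          gcongr
          linarith
        rw [h5] at h8
        linarith
      have h1 := small hN hNN q
      have h2 : T ≤ Real.exp (N₀ ^ δ) := hT.trans (by gcongr)
      have h3 : (0 : ℝ) ≤ 4 * C ^ 2 * (N : ℝ) ^ q := by positivity
      calc (W.card : ℝ) ≤ (Real.exp (N₀ ^ δ) + 1) * 1 := by linarith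
        _ ≤ (Real.exp (N₀ ^ δ) + 1) * (N₀ ^ |q| * (N : ℝ) ^ q) := by gcongr
        _ ≤ _ := by linarith
  · intro hB A σ hσ ε hε
    set ε₂ : ℝ := min ε ((2 * σ - 1) / 2) with hε₂
    have hε₂0 : 0 < ε₂ := lt_min hε (by linarith)
    have hε₂1 : ε₂ ≤ ε := min_le_left _ _
    have hε₂2 : ε₂ ≤ (2 * σ - 1) / 2 := min_le_right _ _
    obtain ⟨C, h⟩ := hB σ hσ ε₂ hε₂0
    set δ : ℝ := 2 * σ - 1 - ε₂ with hδdef
    have hδ : 0 < δ := by rw [hδdef]; linarith
    set q : ℝ := 2 - 2 * σ + ε with hq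
    -- `N ^ A ≤ exp (N ^ δ)` for large `N`
    have hlarge : ∃ N₀ : ℕ, ∀ N : ℕ, N₀ ≤ N → (N : ℝ) ^ A ≤ Real.exp ((N : ℝ) ^ δ) := by
      have h1 : Tendsto (fun y : ℝ => Real.log y / y ^ δ) atTop (nhds 0) := by
        exact (isLittleO_log_rpow_atTop hδ).tendsto_div_nhds_zero
      have h2 := (h1.comp tendsto_natCast_atTop_atTop).eventually
        (gt_mem_nhds (show (0 : ℝ) < 1 / (|A| + 1) by positivity))
      obtain ⟨N₁, hN₁⟩ := eventually_atTop.1 h2
      refine ⟨max N₁ 1, fun N hN => ?_⟩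
      have hN1 : 1 ≤ N := (le_max_right _ _).trans hN
      have hNr : (1 : ℝ) ≤ N := by exact_mod_cast hN1
      have h3 := hN₁ N ((le_max_left _ _).trans hN)
      simp only [Function.comp] at h3
      have h4 : 0 < (N : ℝ) ^ δ := by positivity
      have h5 : Real.log N * (|A| + 1) ≤ (N : ℝ) ^ δ := by
        rw [div_lt_div_iff₀ h4 (by positivity), one_mul] at h3
        exact h3.le
      rw [Real.rpow_def_of_pos (by linarith)]
      apply Real.exp_le_exp.2
      have h6 : 0 ≤ Real.log N := Real.log_nonneg hNr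
      calc Real.log N * A ≤ Real.log N * (|A| + 1) := by
            gcongr
            linarith [le_abs_self A]
        _ ≤ _ := h5
    obtain ⟨N₀, hN₀⟩ := hlarge
    refine ⟨|C| + ((N₀ + 1 : ℝ) ^ |A| + 1) * (N₀ + 1 : ℝ) ^ |q|, ?_⟩
    intro N hN T _ hTA b hb W hW
    have hNr : (1 : ℝ) ≤ N := by exact_mod_cast hN
    have hNq : 0 < (N : ℝ) ^ q := by positivity
    by_cases hc : N₀ ≤ N
    · have h1 := h N hN T (hTA.trans (hN₀ N hc)) b hb W hW
      have h2 : C * (N : ℝ) ^ (2 - 2 * σ + ε₂) ≤ |C| * (N : ℝ) ^ q := by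
        have h4 : (N : ℝ) ^ (2 - 2 * σ + ε₂) ≤ (N : ℝ) ^ q :=
          Real.rpow_le_rpow_of_exponent_le hNr (by rw [hq]; linarith)
        calc C * (N : ℝ) ^ (2 - 2 * σ + ε₂) ≤ |C| * (N : ℝ) ^ (2 - 2 * σ + ε₂) := by
              gcongr
              exact le_abs_self C
          _ ≤ _ := by gcongr
      have h3 : 0 ≤ (((N₀ : ℝ) + 1) ^ |A| + 1) * ((N₀ : ℝ) + 1) ^ |q| * (N : ℝ) ^ q := by positivity
      rw [add_mul]
      linarith
    · push Not at hc
      have hcr : (N : ℝ) ≤ N₀ + 1 := by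
        have : (N : ℝ) < N₀ := by exact_mod_cast hc
        linarith
      rcases W.eq_empty_or_nonempty with rfl | hne
      · simp only [Finset.card_empty, Nat.cast_zero]
        positivity
      obtain ⟨hT0, hcard⟩ := card_le_T (fun t ht => ⟨(hW t ht).1, (hW t ht).2.1⟩) hne
      have h1 := small hN hcr q
      have h2 : (N : ℝ) ^ A ≤ ((N₀ : ℝ) + 1) ^ |A| := by
        calc (N : ℝ) ^ A ≤ (N : ℝ) ^ |A| := Real.rpow_le_rpow_of_exponent_le hNr (le_abs_self A)
          _ ≤ _ := Real.rpow_le_rpow (by positivity) hcr (abs_nonneg A)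
      have h3 : 0 ≤ |C| * (N : ℝ) ^ q := by positivity
      calc (W.card : ℝ) ≤ (((N₀ : ℝ) + 1) ^ |A| + 1) * 1 := by linarith
        _ ≤ (((N₀ : ℝ) + 1) ^ |A| + 1) * (((N₀ : ℝ) + 1) ^ |q| * (N : ℝ) ^ q) := by gcongr
        _ ≤ _ := by rw [add_mul]; linarith

end Pool.Agent.P8H88.RF
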