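import Pool.Agent.P8H16.RF.Stm2

set_option autoImplicit false

/-!
# Project RF (helper16), package ALM2: Borel-Cantelli for all `T ≤ exp (N ^ δ)`
-/

namespace Pool.Agent.P8H88.RF

open Finset MeasureTheory Filter
open Pool.Agent.P8H16.RF

theorem norm_e (y : ℝ) : ‖e y‖ = 1 := Complex.norm_exp_ofReal_mul_I y

theorem norm_F_le (M : ℕ) (a : ℕ → ℂ) (x : ℝ) : ‖F M a x‖ ≤ n1 M a := by
  unfold F n1
  refine (norm_sum_le _ _).trans (le_of_eq ?_)
  refine Finset.sum_congr rfl fun t _ => ?_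
  rw [norm_mul, norm_e, mul_one]

theorem n1_nonneg (M : ℕ) (a : ℕ → ℂ) : 0 ≤ n1 M a := Finset.sum_nonneg fun _ _ => norm_nonneg _

theorem n2_nonneg (M : ℕ) (a : ℕ → ℂ) : 0 ≤ n2 M a := Real.sqrt_nonneg _

/-- the coefficients cut off at `M` -/
noncomputable def cut (M : ℕ) (a : ℕ → ℂ) (t : ℕ) : ℂ := if t < M then a t else 0

theorem sum_cut {M M' : ℕ} (h : M ≤ M') (f g : ℕ → ℂ) (hg : ∀ t < M, f t = g t)
    (h0 : ∀ t, M ≤ t → f t = 0) : ∑ t ∈ range M', f t = ∑ t ∈ range M, g t := by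
  rw [← Finset.sum_subset (Finset.range_subset_range.2 h) (fun t _ ht => h0 t (by
    rw [Finset.mem_range, not_lt] at ht; exact ht))]
  exact Finset.sum_congr rfl fun t ht => hg t (Finset.mem_range.1 ht)

theorem sum_cut' {M M' : ℕ} (h : M ≤ M') (f g : ℕ → ℝ) (hg : ∀ t < M, f t = g t)
    (h0 : ∀ t, M ≤ t → f t = 0) : ∑ t ∈ range M', f t = ∑ t ∈ range M, g t := by
  rw [← Finset.sum_subset (Finset.range_subset_range.2 h) (fun t _ ht => h0 t (by
    rw [Finset.mem_range, not_lt] at ht; exact ht))]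
  exact Finset.sum_congr rfl fun t ht => hg t (Finset.mem_range.1 ht)

theorem F_cut {M M' : ℕ} (h : M ≤ M') (a : ℕ → ℂ) (x : ℝ) : F M' (cut M a) x = F M a x := by
  unfold F
  refine sum_cut h _ _ (fun t ht => ?_) fun t ht => ?_
  · rw [cut, if_pos ht]
  · rw [cut, if_neg (not_lt.2 ht), zero_mul]

theorem n1_cut {M M' : ℕ} (h : M ≤ M') (a : ℕ → ℂ) : n1 M' (cut M a) = n1 M a := by
  unfold n1
  refine sum_cut' h _ _ (fun t ht => ?_) fun t ht => ?_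
  · rw [cut, if_pos ht]
  · rw [cut, if_neg (not_lt.2 ht), norm_zero]

/-- the size of the deviation -/
theorem u_le (ε : ℝ) (hε : 0 < ε) (hε1 : ε ≤ 1) (N : ℕ) (hN : 1 ≤ N) :
    32 * ((N : ℝ) + 1) * ((N : ℝ) ^ (ε / 2) + 3 * Real.log ((N : ℝ) + 2)) ≤
      64 * (1 + 27 / (2 * ε)) * ((N : ℝ) ^ (1 / 2 + ε)) ^ 2 := by
  have hNr : (1 : ℝ) ≤ N := by exact_mod_cast hN
  have h1 : (N : ℝ) ^ (ε / 2) ≤ (N : ℝ) ^ (2 * ε) :=
    Real.rpow_le_rpow_of_exponent_le hNr (by linarith)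
  have h2 : Real.log ((N : ℝ) + 2) ≤ 9 / (2 * ε) * (N : ℝ) ^ (2 * ε) := by
    have h3 : Real.log ((N : ℝ) + 2) ≤ ((N : ℝ) + 2) ^ (2 * ε) / (2 * ε) :=
      Real.log_le_rpow_div (by positivity) (by positivity)
    have h4 : ((N : ℝ) + 2) ^ (2 * ε) ≤ (3 * (N : ℝ)) ^ (2 * ε) :=
      Real.rpow_le_rpow (by positivity) (by linarith) (by positivity)
    have h5 : (3 * (N : ℝ)) ^ (2 * ε) = (3 : ℝ) ^ (2 * ε) * (N : ℝ) ^ (2 * ε) :=
      Real.mul_rpow (by norm_num) (by positivity)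
    have h6 : (3 : ℝ) ^ (2 * ε) ≤ 9 := by
      calc (3 : ℝ) ^ (2 * ε) ≤ (3 : ℝ) ^ (2 : ℝ) :=
            Real.rpow_le_rpow_of_exponent_le (by norm_num) (by linarith)
        _ = 9 := by norm_num
    calc Real.log ((N : ℝ) + 2) ≤ ((N : ℝ) + 2) ^ (2 * ε) / (2 * ε) := h3
      _ ≤ (9 * (N : ℝ) ^ (2 * ε)) / (2 * ε) := by
          gcongr
          rw [h5] at h4
          refine h4.trans ?_
          gcongr
      _ = 9 / (2 * ε) * (N : ℝ) ^ (2 * ε) := by ring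
  have h7 : ((N : ℝ) ^ (1 / 2 + ε)) ^ 2 = (N : ℝ) * (N : ℝ) ^ (2 * ε) := by
    rw [← Real.rpow_natCast, ← Real.rpow_mul (by positivity)]
    have e1 : (1 / 2 + ε) * ((2 : ℕ) : ℝ) = 1 + 2 * ε := by push_cast; ring
    rw [e1, Real.rpow_add (by linarith), Real.rpow_one]
  rw [h7]
  have h8 : (N : ℝ) ^ (ε / 2) + 3 * Real.log ((N : ℝ) + 2) ≤ (1 + 27 / (2 * ε)) * (N : ℝ) ^ (2 * ε) := by
    calc _ ≤ (N : ℝ) ^ (2 * ε) + 3 * (9 / (2 * ε) * (N : ℝ) ^ (2 * ε)) := by gcongr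
      _ = (1 + 27 / (2 * ε)) * (N : ℝ) ^ (2 * ε) := by ring
  have h9 : 0 ≤ (N : ℝ) ^ (ε / 2) + 3 * Real.log ((N : ℝ) + 2) := by
    have h10 : 0 ≤ Real.log ((N : ℝ) + 2) := Real.log_nonneg (by linarith)
    positivity
  have h11 : 32 * ((N : ℝ) + 1) ≤ 32 * (2 * N) := by linarith
  calc 32 * ((N : ℝ) + 1) * ((N : ℝ) ^ (ε / 2) + 3 * Real.log ((N : ℝ) + 2))
      ≤ 32 * (2 * N) * ((1 + 27 / (2 * ε)) * (N : ℝ) ^ (2 * ε)) :=
        mul_le_mul h11 h8 h9 (by positivity)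
    _ = 64 * (1 + 27 / (2 * ε)) * ((N : ℝ) * (N : ℝ) ^ (2 * ε)) := by ring

theorem alm2 (hFIN : S_FIN) : S_ALM2 := by
  intro κ s hs hMean
  have key : ∀ m : ℕ, ∀ᵐ θ ∂Pr, ∃ δ : ℝ, 0 < δ ∧ ∃ C : ℝ, 0 ≤ C ∧ ∀ (N M : ℕ) (a : ℕ → ℂ), 1 ≤ N →
      (M : ℝ) ≤ Real.exp ((N : ℝ) ^ δ) + 1 →
      ∑ n ∈ Icc N (2 * N), ‖F M a (fr κ n (θ n))‖ ≤
        C * (N : ℝ) ^ (1 / ((m : ℝ) + 1)) * ((N : ℝ) * n2 M a + (N : ℝ) ^ s * n1 M a) := by
    intro m
    set ε : ℝ := 1 / ((m : ℝ) + 1) with hε'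
    have hε : 0 < ε := by positivity
    have hε1 : ε ≤ 1 := by
      rw [hε', div_le_one (by positivity)]
      have : (0 : ℝ) ≤ m := Nat.cast_nonneg m
      linarith
    set MN : ℕ → ℕ := fun N => ⌊Real.exp ((N : ℝ) ^ (ε / 2)) + 1⌋₊ with hMN
    set v : ℕ → ℝ := fun N => 32 * ((N : ℝ) + 1) * ((N : ℝ) ^ (ε / 2) + 3 * Real.log ((N : ℝ) + 2))
      with hv
    set u : ℕ → ℝ := fun N => Real.sqrt (v N) with hu
    have hv0 : ∀ N, 0 ≤ v N := by
      intro N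
      have h1 : 0 ≤ Real.log ((N : ℝ) + 2) := Real.log_nonneg (by
        have : (0 : ℝ) ≤ N := Nat.cast_nonneg N
        linarith)
      have h2 : (0 : ℝ) ≤ (N : ℝ) ^ (ε / 2) := by positivity
      positivity
    set E : ℕ → Set (ℕ → unitInterval) := fun N => {θ | ∃ a : ℕ → ℂ, 4 * u N * n1 (MN N) a +
      2 * ∑ n ∈ Icc N (2 * N), (∫ r in (0 : ℝ)..1, ‖F (MN N) a (fr κ n r)‖) <
        ∑ n ∈ Icc N (2 * N), ‖F (MN N) a (fr κ n (θ n))‖} with hE
    have hmeas : ∀ i : ℕ, Pr (E (i + 1)) ≤ ENNReal.ofReal (32 / ((i : ℝ) + 1) ^ 2) := by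
      intro i
      set N := i + 1 with hN
      have hN1 : 1 ≤ N := by omega
      have hNr : (1 : ℝ) ≤ N := by exact_mod_cast hN1
      have h12 : 12 * ((N : ℝ) + 1) ≤ u N ^ 2 := by
        rw [hu]
        simp only
        rw [Real.sq_sqrt (hv0 N), hv]
        simp only
        have h1 : (1 : ℝ) ≤ (N : ℝ) ^ (ε / 2) := Real.one_le_rpow hNr (by positivity)
        have h2 : 0 ≤ Real.log ((N : ℝ) + 2) := Real.log_nonneg (by linarith)
        have h3 : (1 : ℝ) ≤ (N : ℝ) ^ (ε / 2) + 3 * Real.log ((N : ℝ) + 2) := by linarith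
        have h4 : (0 : ℝ) ≤ (N : ℝ) + 1 := by linarith
        nlinarith
      refine (hFIN κ N (MN N) (u N) hN1 (Real.sqrt_nonneg _) h12).trans ?_
      apply ENNReal.ofReal_le_ofReal
      have hM : (MN N : ℝ) ≤ 2 * Real.exp ((N : ℝ) ^ (ε / 2)) := by
        have h1 : (MN N : ℝ) ≤ Real.exp ((N : ℝ) ^ (ε / 2)) + 1 := Nat.floor_le (by positivity)
        have h2 : (1 : ℝ) ≤ Real.exp ((N : ℝ) ^ (ε / 2)) := Real.one_le_exp (by positivity)
        linarith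
      have hexp : Real.exp (-(u N ^ 2 / (32 * ((N : ℝ) + 1)))) =
          Real.exp (-((N : ℝ) ^ (ε / 2))) * (1 / ((N : ℝ) + 2) ^ 3) := by
        have h1 : u N ^ 2 / (32 * ((N : ℝ) + 1)) = (N : ℝ) ^ (ε / 2) + 3 * Real.log ((N : ℝ) + 2) := by
          rw [hu]
          simp only
          rw [Real.sq_sqrt (hv0 N), hv]
          simp only
          field_simp
        rw [h1, neg_add, Real.exp_add]
        congr 1
        have h2 : -(3 * Real.log ((N : ℝ) + 2)) = Real.log (1 / ((N : ℝ) + 2) ^ 3) := by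
          rw [Real.log_div one_ne_zero (by positivity), Real.log_one, Real.log_pow]
          push_cast
          ring
        rw [h2, Real.exp_log (by positivity)]
      rw [hexp]
      calc 16 * (MN N : ℝ) * (Real.exp (-((N : ℝ) ^ (ε / 2))) * (1 / ((N : ℝ) + 2) ^ 3))
          ≤ 16 * (2 * Real.exp ((N : ℝ) ^ (ε / 2))) * (Real.exp (-((N : ℝ) ^ (ε / 2))) *
              (1 / ((N : ℝ) + 2) ^ 3)) := by gcongr
        _ = 32 * (1 / ((N : ℝ) + 2) ^ 3) * (Real.exp ((N : ℝ) ^ (ε / 2)) *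
              Real.exp (-((N : ℝ) ^ (ε / 2)))) := by ring
        _ = 32 / ((N : ℝ) + 2) ^ 3 := by
            rw [← Real.exp_add, add_neg_cancel, Real.exp_zero]
            ring
        _ ≤ 32 / ((i : ℝ) + 1) ^ 2 := by
            have h1 : ((i : ℝ) + 1) = N := by rw [hN]; push_cast; ring
            rw [h1]
            have h2 : (N : ℝ) ^ 2 ≤ ((N : ℝ) + 2) ^ 3 := by nlinarith [sq_nonneg (N : ℝ)]
            gcongr
    have hsum : Summable fun i : ℕ => (32 : ℝ) / ((i : ℝ) + 1) ^ 2 := by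
      have h1 : Summable fun n : ℕ => (1 : ℝ) / (n : ℝ) ^ 2 :=
        Real.summable_one_div_nat_pow.2 (by norm_num)
      have h2 := ((summable_nat_add_iff 1).2 h1).mul_left 32
      refine h2.congr fun i => ?_
      push_cast
      ring
    have hfin : ∑' i, Pr (E (i + 1)) ≠ ⊤ := by
      refine ne_of_lt ?_
      calc ∑' i, Pr (E (i + 1)) ≤ ∑' i : ℕ, ENNReal.ofReal ((32 : ℝ) / ((i : ℝ) + 1) ^ 2) :=
            ENNReal.tsum_le_tsum hmeas
        _ = ENNReal.ofReal (∑' i : ℕ, (32 : ℝ) / ((i : ℝ) + 1) ^ 2) :=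
            (ENNReal.ofReal_tsum_of_nonneg (fun i => by positivity) hsum).symm
        _ < ⊤ := ENNReal.ofReal_lt_top
    have hBC := ae_eventually_notMem hfin
    obtain ⟨C₁, hC₁, hM1⟩ := hMean ε hε
    filter_upwards [hBC] with θ hθ
    obtain ⟨N₀, hN₀⟩ := eventually_atTop.1 hθ
    set K : ℝ := Real.sqrt (64 * (1 + 27 / (2 * ε))) with hK
    have hK0 : 0 ≤ K := Real.sqrt_nonneg _
    refine ⟨ε / 2, by positivity, 4 * K + 2 * C₁ + (N₀ + 1), by positivity, ?_⟩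
    intro N M a hN hM
    have hNr : (1 : ℝ) ≤ N := by exact_mod_cast hN
    have hNε : (1 : ℝ) ≤ (N : ℝ) ^ ε := Real.one_le_rpow hNr hε.le
    have hNs : (1 : ℝ) ≤ (N : ℝ) ^ s := Real.one_le_rpow hNr (by linarith)
    set X : ℝ := (N : ℝ) * n2 M a + (N : ℝ) ^ s * n1 M a with hX
    have hn2 := n2_nonneg M a
    have hn1 := n1_nonneg M a
    have hX1 : (N : ℝ) ^ s * n1 M a ≤ X := by
      have : 0 ≤ (N : ℝ) * n2 M a := by positivity
      linarith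
    have hX0 : 0 ≤ X := by positivity
    by_cases hc : N ≤ N₀
    · -- small `N`
      have hcr : (N : ℝ) ≤ N₀ := by exact_mod_cast hc
      calc ∑ n ∈ Icc N (2 * N), ‖F M a (fr κ n (θ n))‖ ≤ ∑ n ∈ Icc N (2 * N), n1 M a :=
            Finset.sum_le_sum fun n _ => norm_F_le _ _ _
        _ = ((N : ℝ) + 1) * n1 M a := by
            rw [Finset.sum_const, Nat.card_Icc, nsmul_eq_mul]
            congr 1
            have : 2 * N + 1 - N = N + 1 := by omega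
            rw [this]
            push_cast
            ring
        _ ≤ ((N₀ : ℝ) + 1) * (1 * (1 * n1 M a)) := by
            rw [one_mul, one_mul]
            gcongr
        _ ≤ ((N₀ : ℝ) + 1) * ((N : ℝ) ^ ε * ((N : ℝ) ^ s * n1 M a)) := by gcongr
        _ ≤ ((N₀ : ℝ) + 1) * ((N : ℝ) ^ ε * X) := by gcongr
        _ ≤ (4 * K + 2 * C₁ + (N₀ + 1)) * ((N : ℝ) ^ ε * X) :=
            mul_le_mul_of_nonneg_right (by linarith) (by positivity)
        _ = _ := by ring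
    · push Not at hc
      have hnot : θ ∉ E N := by
        have := hN₀ (N - 1) (by omega)
        rwa [Nat.sub_add_cancel hN] at this
      have hMle : M ≤ MN N := Nat.le_floor hM
      have h1 : ∑ n ∈ Icc N (2 * N), ‖F (MN N) (cut M a) (fr κ n (θ n))‖ ≤
          4 * u N * n1 (MN N) (cut M a) +
          2 * ∑ n ∈ Icc N (2 * N), (∫ r in (0 : ℝ)..1, ‖F (MN N) (cut M a) (fr κ n r)‖) := by
        by_contra hcon
        push Not at hcon
        exact hnot ⟨cut M a, hcon⟩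
      simp only [F_cut hMle, n1_cut hMle] at h1
      have h2 := hM1 N M a hN
      have h3 : u N ≤ K * (N : ℝ) ^ (1 / 2 + ε) := by
        rw [hu]
        simp only
        refine Real.sqrt_le_iff.2 ⟨by positivity, ?_⟩
        rw [mul_pow, hK, Real.sq_sqrt (by positivity)]
        exact u_le ε hε hε1 N hN
      have h4 : (N : ℝ) ^ (1 / 2 + ε) ≤ (N : ℝ) ^ ε * (N : ℝ) ^ s := by
        rw [← Real.rpow_add (by linarith)]
        exact Real.rpow_le_rpow_of_exponent_le hNr (by linarith)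
      calc ∑ n ∈ Icc N (2 * N), ‖F M a (fr κ n (θ n))‖
          ≤ 4 * u N * n1 M a +
            2 * ∑ n ∈ Icc N (2 * N), (∫ r in (0 : ℝ)..1, ‖F M a (fr κ n r)‖) := h1
        _ ≤ 4 * (K * ((N : ℝ) ^ ε * (N : ℝ) ^ s)) * n1 M a + 2 * (C₁ * (N : ℝ) ^ ε * X) := by
            gcongr
            exact h3.trans (by gcongr)
        _ = 4 * K * (N : ℝ) ^ ε * ((N : ℝ) ^ s * n1 M a) + 2 * (C₁ * (N : ℝ) ^ ε * X) := by ring
        _ ≤ 4 * K * (N : ℝ) ^ ε * X + 2 * (C₁ * (N : ℝ) ^ ε * X) := by gcongr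
        _ ≤ (4 * K + 2 * C₁ + (N₀ + 1)) * (N : ℝ) ^ ε * X := by
            have : 0 ≤ ((N₀ : ℝ) + 1) * (N : ℝ) ^ ε * X := by positivity
            linarith
  filter_upwards [ae_all_iff.2 key] with θ hθ
  intro ε hε
  obtain ⟨m, hm⟩ := exists_nat_one_div_lt hε
  obtain ⟨δ, hδ, C, hC, h⟩ := hθ m
  refine ⟨δ, hδ, C, hC, fun N M a hN hM => (h N M a hN hM).trans ?_⟩
  have hNr : (1 : ℝ) ≤ N := by exact_mod_cast hN
  have h1 : (N : ℝ) ^ (1 / ((m : ℝ) + 1)) ≤ (N : ℝ) ^ ε :=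
    Real.rpow_le_rpow_of_exponent_le hNr hm.le
  have hn2 := n2_nonneg M a
  have hn1 := n1_nonneg M a
  gcongr

end Pool.Agent.P8H88.RF
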