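import Pool.Agent.P8H88.RF.Alm2

set_option autoImplicit false

/-!
# Project RF (helper16), package GEN2: from the dual bound for `M ≤ exp (N ^ δ) + 1` to Montgomery's bound
-/

namespace Pool.Agent.P8H88.RF

open Finset MeasureTheory Filter
open Pool.Agent.P8H16.RF

/-- phases -/
theorem exists_phase (z : ℂ) : ∃ p : ℂ, ‖p‖ = 1 ∧ p * z = (‖z‖ : ℂ) := by
  by_cases hz : z = 0
  · exact ⟨1, by simp, by simp [hz]⟩
  · have hn : ‖z‖ ≠ 0 := norm_ne_zero_iff.2 hz
    refine ⟨(starRingEnd ℂ) z / ‖z‖, ?_, ?_⟩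
    · rw [norm_div, Complex.norm_conj, Complex.norm_real, norm_norm, div_self hn]
    · have h1 : (starRingEnd ℂ) z * z = (‖z‖ : ℂ) ^ 2 := by
        rw [mul_comm, Complex.mul_conj, Complex.normSq_eq_norm_sq]
        push_cast
        ring
      have hn' : (‖z‖ : ℂ) ≠ 0 := by exact_mod_cast hn
      rw [div_mul_eq_mul_div, h1]
      field_simp

/-- the number of elements -/
theorem card_le_T {W : Finset ℤ} {T : ℝ} (h : ∀ t ∈ W, 0 ≤ (t : ℝ) ∧ (t : ℝ) ≤ T) (hne : W.Nonempty) :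
    0 ≤ T ∧ (W.card : ℝ) ≤ T + 1 := by
  obtain ⟨t₀, ht₀⟩ := hne
  have hT : 0 ≤ T := (h t₀ ht₀).1.trans (h t₀ ht₀).2
  refine ⟨hT, ?_⟩
  have h1 : W ⊆ Finset.Icc 0 ⌊T⌋ := by
    intro t ht
    rw [Finset.mem_Icc]
    exact ⟨by exact_mod_cast (h t ht).1, Int.le_floor.2 (h t ht).2⟩
  have h2 := Finset.card_le_card h1
  rw [Int.card_Icc] at h2
  have h3 : (0 : ℤ) ≤ ⌊T⌋ := Int.floor_nonneg.2 hT
  have h4 : (W.card : ℤ) ≤ ⌊T⌋ + 1 := by omega
  have h5 : (W.card : ℝ) ≤ (⌊T⌋ : ℝ) + 1 := by exact_mod_cast h4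
  linarith [Int.floor_le T]

/-- the inequality of duality -/
theorem dual {x : ℕ → ℝ} {N M : ℕ} {b : ℕ → ℂ} (hb : ∀ n, ‖b n‖ ≤ 1) {W : Finset ℤ} {V B s' : ℝ}
    (hW : ∀ t ∈ W, 0 ≤ t ∧ t < M ∧ V ≤ ‖∑ n ∈ Icc N (2 * N), b n * e ((t : ℝ) * x n)‖)
    (hL : ∀ a : ℕ → ℂ, ∑ n ∈ Icc N (2 * N), ‖F M a (x n)‖ ≤ B * n2 M a + s' * n1 M a) :
    (W.card : ℝ) * V ≤ B * Real.sqrt W.card + s' * W.card := by
  classical
  choose p hp1 hp2 using fun t : ℤ => exists_phase (∑ n ∈ Icc N (2 * N), b n * e ((t : ℝ) * x n))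
  set a : ℕ → ℂ := fun t => if (t : ℤ) ∈ W then p t else 0 with ha
  -- sums over `range M` of functions supported on `W`
  have hsum : ∀ {R : Type} [AddCommMonoid R] (f : ℤ → R),
      ∑ t ∈ range M, (if (t : ℤ) ∈ W then f t else 0) = ∑ t ∈ W, f t := by
    intro R _ f
    rw [← Finset.sum_filter]
    refine Finset.sum_bij (fun (t : ℕ) _ => (t : ℤ)) ?_ ?_ ?_ ?_
    · intro t ht
      exact (Finset.mem_filter.1 ht).2
    · intro t _ t' _ h
      exact_mod_cast h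
    · intro t ht
      obtain ⟨h1, h2, _⟩ := hW t ht
      refine ⟨t.toNat, ?_, Int.toNat_of_nonneg h1⟩
      rw [Finset.mem_filter, Finset.mem_range, Int.toNat_of_nonneg h1]
      exact ⟨by omega, ht⟩
    · intro t _
      rfl
  have hn1 : n1 M a = W.card := by
    unfold n1
    have h1 := hsum (fun _ : ℤ => (1 : ℝ))
    rw [Finset.sum_const, nsmul_eq_mul, mul_one] at h1
    rw [← h1]
    refine Finset.sum_congr rfl fun t _ => ?_
    rw [ha]
    simp only
    split_ifs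
    · exact hp1 _
    · exact norm_zero
  have hn2 : n2 M a = Real.sqrt W.card := by
    unfold n2
    congr 1
    have h1 := hsum (fun _ : ℤ => (1 : ℝ))
    rw [Finset.sum_const, nsmul_eq_mul, mul_one] at h1
    rw [← h1]
    refine Finset.sum_congr rfl fun t _ => ?_
    rw [ha]
    simp only
    split_ifs
    · rw [hp1, one_pow]
    · rw [norm_zero]; norm_num
  have hmain : ((∑ t ∈ W, ‖∑ n ∈ Icc N (2 * N), b n * e ((t : ℝ) * x n)‖ : ℝ) : ℂ) =
      ∑ n ∈ Icc N (2 * N), b n * F M a (x n) := by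
    push_cast
    rw [← hsum (fun t : ℤ => ((‖∑ n ∈ Icc N (2 * N), b n * e ((t : ℝ) * x n)‖ : ℝ) : ℂ))]
    unfold F
    simp only [Finset.mul_sum]
    rw [Finset.sum_comm]
    refine Finset.sum_congr rfl fun t _ => ?_
    rw [ha]
    simp only
    split_ifs with h
    · rw [← hp2 t, Finset.mul_sum]
      refine Finset.sum_congr rfl fun n _ => ?_
      push_cast
      ring
    · simp
  have h1 : (W.card : ℝ) * V ≤ ∑ t ∈ W, ‖∑ n ∈ Icc N (2 * N), b n * e ((t : ℝ) * x n)‖ := by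
    have := Finset.card_nsmul_le_sum W (fun t => ‖∑ n ∈ Icc N (2 * N), b n * e ((t : ℝ) * x n)‖) V
      fun t ht => (hW t ht).2.2
    rwa [nsmul_eq_mul] at this
  have h2 : (∑ t ∈ W, ‖∑ n ∈ Icc N (2 * N), b n * e ((t : ℝ) * x n)‖ : ℝ) ≤
      ∑ n ∈ Icc N (2 * N), ‖F M a (x n)‖ := by
    have h3 : ‖((∑ t ∈ W, ‖∑ n ∈ Icc N (2 * N), b n * e ((t : ℝ) * x n)‖ : ℝ) : ℂ)‖ =
        ∑ t ∈ W, ‖∑ n ∈ Icc N (2 * N), b n * e ((t : ℝ) * x n)‖ := by
      rw [Complex.norm_real, Real.norm_eq_abs, abs_of_nonneg]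
      exact Finset.sum_nonneg fun _ _ => norm_nonneg _
    rw [← h3, hmain]
    refine (norm_sum_le _ _).trans (Finset.sum_le_sum fun n _ => ?_)
    rw [norm_mul]
    calc ‖b n‖ * ‖F M a (x n)‖ ≤ 1 * ‖F M a (x n)‖ := by
          gcongr
          exact hb n
      _ = _ := one_mul _
  have h3 := hL a
  rw [hn1, hn2] at h3
  exact (h1.trans h2).trans h3

/-- small `N` -/
theorem small {N : ℕ} (hN : 1 ≤ N) {N₀ : ℝ} (h : (N : ℝ) ≤ N₀) (q : ℝ) :
    1 ≤ N₀ ^ |q| * (N : ℝ) ^ q := by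
  have hNr : (1 : ℝ) ≤ N := by exact_mod_cast hN
  have h1 : (N : ℝ) ^ |q| ≤ N₀ ^ |q| := Real.rpow_le_rpow (by positivity) h (abs_nonneg q)
  calc (1 : ℝ) ≤ (N : ℝ) ^ (|q| + q) := Real.one_le_rpow hNr (by linarith [neg_abs_le q])
    _ = (N : ℝ) ^ |q| * (N : ℝ) ^ q := Real.rpow_add (by linarith) _ _
    _ ≤ _ := by gcongr

theorem gen2 : S_GEN2 := by
  intro x s hs
  refine ⟨?_, ?_⟩
  · intro hL σ hσ ε hε
    set ε' : ℝ := min (ε / 2) ((σ - s) / 2) with hε'
    have hε'0 : 0 < ε' := lt_min (by positivity) (by linarith)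
    obtain ⟨δ, hδ, C, hC, h⟩ := hL ε' hε'0
    set q : ℝ := 2 - 2 * σ + ε with hq
    set N₀ : ℝ := max 1 ((2 * C + 1) ^ (2 / (σ - s))) with hN₀
    have hN₀1 : 1 ≤ N₀ := le_max_left _ _
    refine ⟨δ, hδ, 4 * C ^ 2 + (Real.exp (N₀ ^ δ) + 1) * N₀ ^ |q|, ?_⟩
    intro N hN T hT b hb W hW
    have hNr : (1 : ℝ) ≤ N := by exact_mod_cast hN
    have hNq : 0 < (N : ℝ) ^ q := by positivity
    rcases W.eq_empty_or_nonempty with rfl | hne
    · simp only [Finset.card_empty, Nat.cast_zero]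
      positivity
    obtain ⟨hT0, hcard⟩ := card_le_T (fun t ht => ⟨(hW t ht).1, (hW t ht).2.1⟩) hne
    by_cases hc : 2 * C * ((N : ℝ) ^ ε' * (N : ℝ) ^ s) ≤ (N : ℝ) ^ σ
    · have hR0 : (0 : ℝ) < W.card := by exact_mod_cast hne.card_pos
      have hM : ((⌊T⌋₊ + 1 : ℕ) : ℝ) ≤ Real.exp ((N : ℝ) ^ δ) + 1 := by
        push_cast
        linarith [Nat.floor_le hT0]
      have hd := dual (x := x) (N := N) (M := ⌊T⌋₊ + 1) hb (W := W) (V := (N : ℝ) ^ σ)
        (B := C * (N : ℝ) ^ ε' * N) (s' := C * (N : ℝ) ^ ε' * (N : ℝ) ^ s) (by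
          intro t ht
          obtain ⟨h1, h2, h3⟩ := hW t ht
          have h1' : 0 ≤ t := by exact_mod_cast h1
          refine ⟨h1', ?_, h3.le⟩
          have h4 : t.toNat ≤ ⌊T⌋₊ := by
            apply Nat.le_floor
            have : ((t.toNat : ℕ) : ℝ) = (t : ℝ) := by
              exact_mod_cast Int.toNat_of_nonneg h1'
            rw [this]
            exact h2
          have h5 := Int.toNat_of_nonneg h1'
          push_cast
          omega) (by
          intro a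
          refine (h N _ a hN hM).trans (le_of_eq ?_)
          ring)
      set R : ℝ := (W.card : ℝ) with hR
      have hsq : Real.sqrt R * Real.sqrt R = R := Real.mul_self_sqrt hR0.le
      have hsqpos : 0 < Real.sqrt R := Real.sqrt_pos.2 hR0
      have h1 : R * (N : ℝ) ^ σ ≤ 2 * (C * (N : ℝ) ^ ε' * N) * Real.sqrt R := by
        have h2 : C * (N : ℝ) ^ ε' * (N : ℝ) ^ s * R ≤ (N : ℝ) ^ σ / 2 * R := by
          gcongr
          linarith
        linarith
      have h2 : Real.sqrt R * (N : ℝ) ^ σ ≤ 2 * (C * (N : ℝ) ^ ε' * N) := by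
        have h3 : Real.sqrt R * (Real.sqrt R * (N : ℝ) ^ σ) ≤
            Real.sqrt R * (2 * (C * (N : ℝ) ^ ε' * N)) := by
          rw [← mul_assoc, hsq]
          linarith
        exact le_of_mul_le_mul_left h3 hsqpos
      have h3 : R * (N : ℝ) ^ (2 * σ) ≤ 4 * C ^ 2 * (N : ℝ) ^ (2 * ε' + 2) := by
        have h4 : (Real.sqrt R * (N : ℝ) ^ σ) ^ 2 ≤ (2 * (C * (N : ℝ) ^ ε' * N)) ^ 2 := by gcongr
        have e1 : (Real.sqrt R * (N : ℝ) ^ σ) ^ 2 = R * (N : ℝ) ^ (2 * σ) := by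
          rw [mul_pow, Real.sq_sqrt hR0.le, ← Real.rpow_natCast, ← Real.rpow_mul (by positivity)]
          congr 2
          push_cast
          ring
        have e2 : (2 * (C * (N : ℝ) ^ ε' * N)) ^ 2 = 4 * C ^ 2 * (N : ℝ) ^ (2 * ε' + 2) := by
          have e3 : (N : ℝ) ^ (2 * ε' + 2) = ((N : ℝ) ^ ε' * N) ^ 2 := by
            rw [mul_pow, Real.rpow_add (by linarith), ← Real.rpow_natCast ((N : ℝ) ^ ε'),
              ← Real.rpow_mul (by positivity)]
            congr 1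
            · congr 1
              push_cast
              ring
            · norm_cast
          rw [e3]
          ring
        rwa [e1, e2] at h4
      have h5 : R ≤ 4 * C ^ 2 * (N : ℝ) ^ q := by
        have h6 : (N : ℝ) ^ (2 * ε' + 2) ≤ (N : ℝ) ^ q * (N : ℝ) ^ (2 * σ) := by
          rw [← Real.rpow_add (by linarith)]
          refine Real.rpow_le_rpow_of_exponent_le hNr ?_
          have := min_le_left (ε / 2) ((σ - s) / 2)
          rw [← hε'] at this
          rw [hq]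
          linarith
        have h7 : 0 < (N : ℝ) ^ (2 * σ) := by positivity
        have h8 : R * (N : ℝ) ^ (2 * σ) ≤ 4 * C ^ 2 * (N : ℝ) ^ q * (N : ℝ) ^ (2 * σ) := by
          calc R * (N : ℝ) ^ (2 * σ) ≤ 4 * C ^ 2 * (N : ℝ) ^ (2 * ε' + 2) := h3
            _ ≤ 4 * C ^ 2 * ((N : ℝ) ^ q * (N : ℝ) ^ (2 * σ)) := by gcongr
            _ = _ := by ring
        exact le_of_mul_le_mul_right h8 h7
      have h9 : 0 ≤ (Real.exp (N₀ ^ δ) + 1) * N₀ ^ |q| * (N : ℝ) ^ q := by positivity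
      linarith
    · push Not at hc
      have hNN : (N : ℝ) ≤ N₀ := by
        by_contra hcon
        push Not at hcon
        have h1 : (2 * C + 1) ^ (2 / (σ - s)) < (N : ℝ) := lt_of_le_of_lt (le_max_right _ _) hcon
        have h2 : 2 * C + 1 ≤ (N : ℝ) ^ ((σ - s) / 2) := by
          have h3 : ((2 * C + 1) ^ (2 / (σ - s))) ^ ((σ - s) / 2) ≤ (N : ℝ) ^ ((σ - s) / 2) :=
            Real.rpow_le_rpow (by positivity) h1.le (by linarith)
          rw [← Real.rpow_mul (by positivity)] at h3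
          have e1 : 2 / (σ - s) * ((σ - s) / 2) = 1 := by
            have : σ - s ≠ 0 := by linarith
            field_simp
          rwa [e1, Real.rpow_one] at h3
        have h4 : (N : ℝ) ^ ((σ - s) / 2) * ((N : ℝ) ^ ε' * (N : ℝ) ^ s) ≤ (N : ℝ) ^ σ := by
          rw [← Real.rpow_add (by linarith), ← Real.rpow_add (by linarith)]
          refine Real.rpow_le_rpow_of_exponent_le hNr ?_
          have := min_le_right (ε / 2) ((σ - s) / 2)
          rw [← hε'] at this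
          linarith
        have h5 : 2 * C * ((N : ℝ) ^ ε' * (N : ℝ) ^ s) ≤
            (N : ℝ) ^ ((σ - s) / 2) * ((N : ℝ) ^ ε' * (N : ℝ) ^ s) := by
          gcongr
          linarith
        linarith
      have h1 := small hN hNN q
      have h2 : T ≤ Real.exp (N₀ ^ δ) := hT.trans (by gcongr)
      have h3 : (0 : ℝ) ≤ 4 * C ^ 2 * (N : ℝ) ^ q := by positivity
      calc (W.card : ℝ) ≤ (Real.exp (N₀ ^ δ) + 1) * 1 := by linarith
        _ ≤ (Real.exp (N₀ ^ δ) + 1) * (N₀ ^ |q| * (N : ℝ) ^ q) := by gcongr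
        _ ≤ _ := by linarith
  · intro hB A σ hσ ε hε
    obtain ⟨δ, hδ, C, h⟩ := hB σ hσ ε hε
    set q : ℝ := 2 - 2 * σ + ε with hq
    -- `N ^ A ≤ exp (N ^ δ)` for large `N`
    have hlarge : ∃ N₀ : ℕ, ∀ N : ℕ, N₀ ≤ N → (N : ℝ) ^ A ≤ Real.exp ((N : ℝ) ^ δ) := by
      have h1 : Tendsto (fun y : ℝ => Real.log y / y ^ δ) atTop (nhds 0) := by
        exact (isLittleO_log_rpow_atTop hδ).tendsto_div_nhds_zero
      have h2 := (h1.comp tendsto_natCast_atTop_atTop).eventually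
        (gt_mem_nhds (show (0 : ℝ) < 1 / (|A| + 1) by positivity))
      obtain ⟨N₁, hN₁⟩ := eventually_atTop.1 h2
      refine ⟨max N₁ 1, fun N hN => ?_⟩
      have hN1 : 1 ≤ N := (le_max_right _ _).trans hN
      have hNr : (1 : ℝ) ≤ N := by exact_mod_cast hN1
      have h3 := hN₁ N ((le_max_left _ _).trans hN)
      simp only [Function.comp] at h3
      have h4 : 0 < (N : ℝ) ^ δ := by positivity
      have h5 : Real.log N * (|A| + 1) ≤ (N : ℝ) ^ δ := by
        rw [div_lt_div_iff₀ h4 (by positivity), one_mul] at h3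
        exact h3.le
      rw [Real.rpow_def_of_pos (by linarith)]
      apply Real.exp_le_exp.2
      have h6 : 0 ≤ Real.log N := Real.log_nonneg hNr
      calc Real.log N * A ≤ Real.log N * (|A| + 1) := by
            gcongr
            linarith [le_abs_self A]
        _ ≤ _ := h5
    obtain ⟨N₀, hN₀⟩ := hlarge
    refine ⟨|C| + ((N₀ + 1 : ℝ) ^ |A| + 1) * (N₀ + 1 : ℝ) ^ |q|, ?_⟩
    intro N hN T _ hTA b hb W hW
    have hNr : (1 : ℝ) ≤ N := by exact_mod_cast hN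
    have hNq : 0 < (N : ℝ) ^ q := by positivity
    by_cases hc : N₀ ≤ N
    · have h1 := h N hN T (hTA.trans (hN₀ N hc)) b hb W hW
      have h2 : C * (N : ℝ) ^ q ≤ |C| * (N : ℝ) ^ q := by
        gcongr
        exact le_abs_self C
      have h3 : 0 ≤ (((N₀ : ℝ) + 1) ^ |A| + 1) * ((N₀ : ℝ) + 1) ^ |q| * (N : ℝ) ^ q := by positivity
      rw [add_mul]
      linarith
    · push Not at hc
      have hcr : (N : ℝ) ≤ N₀ + 1 := by
        have : (N : ℝ) < N₀ := by exact_mod_cast hc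
        linarith
      rcases W.eq_empty_or_nonempty with rfl | hne
      · simp only [Finset.card_empty, Nat.cast_zero]
        positivity
      obtain ⟨hT0, hcard⟩ := card_le_T (fun t ht => ⟨(hW t ht).1, (hW t ht).2.1⟩) hne
      have h1 := small hN hcr q
      have h2 : (N : ℝ) ^ A ≤ ((N₀ : ℝ) + 1) ^ |A| := by
        calc (N : ℝ) ^ A ≤ (N : ℝ) ^ |A| := Real.rpow_le_rpow_of_exponent_le hNr (le_abs_self A)
          _ ≤ _ := Real.rpow_le_rpow (by positivity) hcr (abs_nonneg A)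
      have h3 : 0 ≤ |C| * (N : ℝ) ^ q := by positivity
      calc (W.card : ℝ) ≤ (((N₀ : ℝ) + 1) ^ |A| + 1) * 1 := by linarith
        _ ≤ (((N₀ : ℝ) + 1) ^ |A| + 1) * (((N₀ : ℝ) + 1) ^ |q| * (N : ℝ) ^ q) := by gcongr
        _ ≤ _ := by rw [add_mul]; linarith

end Pool.Agent.P8H88.RF
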